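import Mathlib

/-!
Coefficients of `(h choose j)^r` in the binomial basis and a lower bound for their
`p`-adic valuations.
-/

namespace Pool.Agent.R507.MP32

open Finset

/-- `cc j r i` is the coefficient of `h.choose i` in `(h.choose j)^r`. -/
def cc (j : ℕ) : ℕ → ℕ → ℕ
  | 0, i => if i = 0 then 1 else 0
  | (r+1), i => ∑ β ∈ range (j+1),
      if β ≤ i then cc j r (i-β) * (i.choose β * (i-β).choose (j-β)) else 0

lemma cc_support (j : ℕ) : ∀ r i, j * r < i → cc j r i = 0 := by
  intro r
  induction r with
  | zero =>
    intro i hi
    simp only [cc]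
    rw [if_neg]
    omega
  | succ r ih =>
    intro i hi
    simp only [cc]
    refine Finset.sum_eq_zero ?_
    intro β hβ
    rw [Finset.mem_range] at hβ
    split_ifs with h
    · rw [ih (i-β) (by
        have : j * (r+1) = j * r + j := by ring
        omega)]
      simp
    · rfl

lemma choose_mul_choose (h m j : ℕ) :
    h.choose m * h.choose j
      = ∑ β ∈ range (j+1), (m+β).choose β * m.choose (j-β) * h.choose (m+β) := by
  rcases Nat.lt_or_ge h m with hlt | hge
  · rw [Nat.choose_eq_zero_of_lt hlt, zero_mul]
    symm
    refine Finset.sum_eq_zero ?_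
    intro β _
    rw [Nat.choose_eq_zero_of_lt (show h < m + β by omega)]
    simp
  · have hv : h.choose j = ∑ β ∈ range (j+1), (h-m).choose β * m.choose (j-β) := by
      have := Nat.add_choose_eq (h-m) m j
      rw [Nat.sub_add_cancel hge] at this
      rw [this, Finset.Nat.sum_antidiagonal_eq_sum_range_succ
        (fun a b => (h-m).choose a * m.choose b)]
    rw [hv, Finset.mul_sum]
    refine Finset.sum_congr rfl ?_
    intro β _
    have h1 : h.choose m * (h-m).choose β = h.choose (m+β) * (m+β).choose β := by
      rcases Nat.lt_or_ge h (m+β) with hlt | hge2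
      · rw [Nat.choose_eq_zero_of_lt hlt, Nat.choose_eq_zero_of_lt (show h - m < β by omega)]
        simp
      · have := Nat.choose_mul (n := h) (k := m+β) (s := m) (Nat.le_add_right m β)
        rw [Nat.add_sub_cancel_left] at this
        rw [← this]
        congr 1
        rw [Nat.choose_symm_add]
    calc h.choose m * ((h-m).choose β * m.choose (j-β))
        = (h.choose m * (h-m).choose β) * m.choose (j-β) := by ring
      _ = _ := by rw [h1]; ring

lemma choose_pow (j h : ℕ) : ∀ r M, j * r < M →
    (h.choose j)^r = ∑ i ∈ range M, cc j r i * h.choose i := by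
  intro r
  induction r with
  | zero =>
    intro M hM
    simp only [cc]
    rw [Finset.sum_eq_single 0]
    · simp
    · intro b _ hb
      simp [hb]
    · intro h0
      exfalso
      apply h0
      rw [Finset.mem_range]; omega
  | succ r ih =>
    intro M hM
    have hM' : j * r + j < M := by
      have : j * (r+1) = j * r + j := by ring
      omega
    have e1 : ∑ i ∈ range M, cc j (r+1) i * h.choose i
        = ∑ β ∈ range (j+1), ∑ i ∈ range M,
          (if β ≤ i then cc j r (i-β) * (i.choose β * (i-β).choose (j-β)) else 0)
            * h.choose i := by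
      rw [Finset.sum_comm]
      refine Finset.sum_congr rfl ?_
      intro i _
      simp only [cc]
      rw [Finset.sum_mul]
    have e2 : ∀ β ∈ range (j+1), ∑ i ∈ range M,
          (if β ≤ i then cc j r (i-β) * (i.choose β * (i-β).choose (j-β)) else 0)
            * h.choose i
        = ∑ i ∈ range (j*r+1), cc j r i * ((i+β).choose β * i.choose (j-β) * h.choose (i+β)) := by
      intro β hβ
      rw [Finset.mem_range] at hβ
      have hsplit : M = β + (M - β) := by omega
      rw [hsplit, Finset.sum_range_add]
      have z : ∑ x ∈ range β,
          (if β ≤ x then cc j r (x-β) * (x.choose β * (x-β).choose (j-β)) else 0)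
            * h.choose x = 0 := by
        refine Finset.sum_eq_zero ?_
        intro x hx
        rw [Finset.mem_range] at hx
        rw [if_neg (by omega)]
        simp
      rw [z, zero_add]
      have hsub : range (j*r+1) ⊆ range (M-β) := by
        intro x hx
        rw [Finset.mem_range] at *
        omega
      rw [← Finset.sum_subset hsub]
      · refine Finset.sum_congr rfl ?_
        intro x _
        rw [if_pos (by omega)]
        have : β + x - β = x := by omega
        rw [this, Nat.add_comm β x]
        ring
      · intro x _ hx
        rw [Finset.mem_range, not_lt] at hx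
        rw [if_pos (by omega)]
        have : β + x - β = x := by omega
        rw [this, cc_support j r x (by omega)]
        simp
    rw [e1, Finset.sum_congr rfl e2, Finset.sum_comm, pow_succ, ih (j*r+1) (by omega),
      Finset.sum_mul]
    refine Finset.sum_congr rfl ?_
    intro i _
    rw [mul_assoc, choose_mul_choose h i j, Finset.mul_sum]

/-- contribution of the exponent `b` to the valuation of `cc j r i`. -/
def mu (j q i : ℕ) : ℕ :=
  (if q ∣ j ∧ ¬ q ∣ i then 1 else 0) + (if j < q then i / q else 0)

lemma mu_step (j q i β : ℕ) (hq : 0 < q) (hj : 0 < j) (hβj : β ≤ j) (hji : j ≤ i) :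
    mu j q i ≤ mu j q (i-β) + ((if q ≤ β % q + (i-β) % q then 1 else 0)
      + (if q ≤ (j-β) % q + (i-β-(j-β)) % q then 1 else 0)) := by
  unfold mu
  have hidx : i - β - (j - β) = i - j := by omega
  rw [hidx]
  by_cases hqj : q ∣ j
  · have hnlt : ¬ j < q := by
      have := Nat.le_of_dvd hj hqj
      omega
    rw [if_neg hnlt, if_neg hnlt]
    by_cases hqi : q ∣ i
    · rw [if_neg (by tauto)]
      omega
    · by_cases hqib : q ∣ (i-β)
      · have hqb : ¬ q ∣ β := by
          intro h
          apply hqi
          have : i = (i-β) + β := by omega
          rw [this]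
          exact dvd_add hqib h
        have hqjb : ¬ q ∣ (j-β) := by
          intro h
          apply hqb
          have : β = j - (j-β) := by omega
          rw [this]
          exact Nat.dvd_sub hqj h
        have h3 : q ≤ (j-β) % q + (i-j) % q := by
          have hd : q ∣ (j-β) % q + (i-j) % q := by
            have h4 : ((j-β) % q + (i-j) % q) % q = 0 := by
              rw [← Nat.add_mod]
              have : j - β + (i-j) = i - β := by omega
              rw [this]
              exact Nat.mod_eq_zero_of_dvd hqib
            exact Nat.dvd_of_mod_eq_zero h4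
          apply Nat.le_of_dvd _ hd
          have : (j-β) % q ≠ 0 := fun h => hqjb (Nat.dvd_of_mod_eq_zero h)
          omega
        rw [if_pos h3]
        rw [if_pos ⟨hqj, hqi⟩]
        omega
      · rw [if_pos ⟨hqj, hqi⟩, if_pos ⟨hqj, hqib⟩]
        omega
  · have hA : ¬ (q ∣ j ∧ ¬ q ∣ i) := fun h => hqj h.1
    have hB : ¬ (q ∣ j ∧ ¬ q ∣ (i-β)) := fun h => hqj h.1
    rw [if_neg hA, if_neg hB]
    by_cases hjq : j < q
    · rw [if_pos hjq, if_pos hjq]
      have h1 := Nat.add_div (a := β) (b := i-β) hq
      have : β + (i - β) = i := by omega
      rw [this] at h1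
      have hb0 : β / q = 0 := Nat.div_eq_of_lt (by omega)
      rw [h1, hb0]
      omega
    · rw [if_neg hjq, if_neg hjq]
      omega

lemma cc_val (p j B : ℕ) [hp : Fact p.Prime] (hj : 0 < j) : ∀ r i, i < p^B →
    p ^ (∑ b ∈ Ico 1 B, mu j (p^b) i) ∣ cc j r i := by
  intro r
  induction r with
  | zero =>
    intro i _
    simp only [cc]
    split_ifs with h
    · subst h
      have : ∑ b ∈ Ico 1 B, mu j (p^b) 0 = 0 := by
        refine Finset.sum_eq_zero ?_
        intro b _
        unfold mu
        simp
      rw [this]; simp
    · simp
  | succ r ih =>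
    intro i hi
    simp only [cc]
    refine Finset.dvd_sum ?_
    intro β hβ
    rw [Finset.mem_range] at hβ
    split_ifs with hβi
    · rcases Nat.lt_or_ge i j with hij | hij
      · rw [Nat.choose_eq_zero_of_lt (show i - β < j - β by omega)]
        simp
      · have h1 := ih (i-β) (by omega)
        have hlog1 : Nat.log p i < B := by
          rcases Nat.eq_zero_or_pos i with h0 | h0
          · omega
          · exact Nat.log_lt_of_lt_pow (by omega) hi
        have hlog2 : Nat.log p (i-β) < B :=
          lt_of_le_of_lt (Nat.log_mono_right (Nat.sub_le _ _)) hlog1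
        have v1 := padicValNat_choose (p := p) (n := i) (k := β) (b := B) hβi hlog1
        have v2 := padicValNat_choose (p := p) (n := i-β) (k := j-β) (b := B)
          (by omega) hlog2
        have h2 : p ^ (padicValNat p (i.choose β)) ∣ i.choose β := pow_padicValNat_dvd
        have h3 : p ^ (padicValNat p ((i-β).choose (j-β))) ∣ (i-β).choose (j-β) :=
          pow_padicValNat_dvd
        have h4 := mul_dvd_mul h1 (mul_dvd_mul h2 h3)
        rw [← pow_add, ← pow_add] at h4
        refine dvd_trans (pow_dvd_pow p ?_) h4
        rw [v1, v2, Finset.card_filter, Finset.card_filter, ← Finset.sum_add_distrib,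
          ← Finset.sum_add_distrib]
        refine Finset.sum_le_sum ?_
        intro b _
        have := mu_step j (p^b) i β (pow_pos hp.out.pos b) hj (by omega) hij
        omega
    · simp

end Pool.Agent.R507.MP32
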