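import Pool.Agent.R507.MP32.Coef

/-!
The inequality `log_p i + v_p (i+1) ≤ v_p (C) + v_p (cc j r i)`.
-/

namespace Pool.Agent.R507.MP32

open Finset

/-- The multiplier `(j r + 1)! / (j!)^r`. -/
def Cn (j r : ℕ) : ℕ := (j*r+1).factorial / (j.factorial)^r

lemma Cn_mul (j r : ℕ) : Cn j r * (j.factorial)^r = (j*r+1).factorial := by
  unfold Cn
  apply Nat.div_mul_cancel
  have h := Nat.prod_factorial_dvd_factorial_sum (range r) (fun _ => j)
  simp only [Finset.prod_const, Finset.card_range, Finset.sum_const, smul_eq_mul] at h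
  refine dvd_trans h ?_
  rw [Nat.mul_comm r j]
  exact Nat.factorial_dvd_factorial (by omega)

lemma Cn_ne (j r : ℕ) : Cn j r ≠ 0 := by
  intro h
  have := Cn_mul j r
  rw [h, zero_mul] at this
  exact (Nat.factorial_ne_zero _) this.symm

lemma Cn_val (p j r B : ℕ) [hp : Fact p.Prime] (hB : j*r+1 < p^B) :
    padicValNat p (Cn j r) + ∑ b ∈ Ico 1 B, r * (j / p^b) = ∑ b ∈ Ico 1 B, (j*r+1) / p^b := by
  have h1 : Nat.log p (j*r+1) < B := Nat.log_lt_of_lt_pow (by omega) hB
  rcases Nat.eq_zero_or_pos r with hr | hr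
  · subst hr
    simp only [zero_mul, Finset.sum_const_zero, add_zero]
    rw [← padicValNat_factorial h1, ← Cn_mul j 0]
    simp
  have h2 : Nat.log p j < B := by
    refine lt_of_le_of_lt (Nat.log_mono_right ?_) h1
    nlinarith
  rw [← Finset.mul_sum, ← padicValNat_factorial h1, ← padicValNat_factorial h2, ← Cn_mul j r,
    padicValNat.mul (Cn_ne j r) (pow_ne_zero _ (Nat.factorial_ne_zero j)), padicValNat.pow]

lemma log_sum (p i B : ℕ) [hp : Fact p.Prime] (hB : i < p^B) :
    Nat.log p i = ∑ b ∈ Ico 1 B, (if p^b ≤ i then 1 else 0) := by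
  rw [← Finset.card_filter]
  rcases Nat.eq_zero_or_pos i with h0 | h0
  · subst h0
    rw [Nat.log_zero_right]
    symm
    rw [Finset.card_eq_zero, Finset.filter_eq_empty_iff]
    intro b _
    have := pow_pos hp.out.pos b
    omega
  · have : (Ico 1 B).filter (fun b => p^b ≤ i) = Ico 1 (Nat.log p i + 1) := by
      ext b
      simp only [Finset.mem_filter, Finset.mem_Ico]
      have hlt : Nat.log p i < B := Nat.log_lt_of_lt_pow (by omega) hB
      have hiff : b ≤ Nat.log p i ↔ p^b ≤ i :=
        Nat.le_log_iff_pow_le hp.out.one_lt (by omega)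
      constructor
      · rintro ⟨⟨h1, h2⟩, h3⟩
        exact ⟨h1, by have := hiff.mpr h3; omega⟩
      · rintro ⟨h1, h2⟩
        exact ⟨⟨h1, by omega⟩, hiff.mp (by omega)⟩
    rw [this, Nat.card_Ico]
    omega

lemma val_succ_sum (p i B : ℕ) [hp : Fact p.Prime] (hB : i + 1 < p^B) :
    padicValNat p (i+1) = ∑ b ∈ Ico 1 B, (if p^b ∣ i+1 then 1 else 0) := by
  rw [← Finset.card_filter]
  have h1 : Nat.log p (i+1) < B := Nat.log_lt_of_lt_pow (by omega) hB
  have h2 := Nat.emultiplicity_eq_card_pow_dvd (m := p) (n := i+1) (b := B) hp.out.one_lt.ne'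
    (by omega) h1
  have h3 := padicValNat_eq_emultiplicity (p := p) (n := i+1) (by omega)
  rw [h2] at h3
  exact_mod_cast h3

/-- the termwise inequality -/
def T (j r i q a a' : ℕ) : Prop :=
  (if q ≤ i then 1 else 0) + (if q ∣ i+1 then 1 else 0) + r * (j / q) + a'
    ≤ (j*r+1) / q + mu j q i + a

lemma assemble (p j r i B : ℕ) [hp : Fact p.Prime] (hB : j*r+1 < p^B) (hi : i ≤ j*r)
    (adj adj' : ℕ → ℕ) (hT : ∀ b ∈ Ico 1 B, T j r i (p^b) (adj b) (adj' b))
    (hadj : ∑ b ∈ Ico 1 B, adj b ≤ ∑ b ∈ Ico 1 B, adj' b) :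
    Nat.log p i + padicValNat p (i+1)
      ≤ padicValNat p (Cn j r) + ∑ b ∈ Ico 1 B, mu j (p^b) i := by
  have h1 := Finset.sum_le_sum hT
  simp only [Finset.sum_add_distrib] at h1
  rw [log_sum p i B (by omega), val_succ_sum p i B (by omega)]
  have h2 := Cn_val p j r B hB
  omega

lemma split_div (j r q : ℕ) (hq : 0 < q) : (j*r+1) / q = r * (j / q) + (r * (j % q) + 1) / q := by
  have h : j * r + 1 = (r * (j % q) + 1) + q * (r * (j / q)) := by
    have := Nat.mod_add_div j q
    calc j * r + 1 = (j % q + q * (j / q)) * r + 1 := by rw [this]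
      _ = _ := by ring
  rw [h, Nat.add_mul_div_left _ _ hq]
  ring

lemma two_le_of (i q : ℕ) (h1 : q ≤ i) (h2 : q ∣ i+1) : 2*q ≤ i+1 := by
  obtain ⟨c, hc⟩ := h2
  have : 2 ≤ c := by
    by_contra h
    have : c = 0 ∨ c = 1 := by omega
    rcases this with h | h
    · subst h; omega
    · subst h; omega
  nlinarith

lemma T_gt (j r i q : ℕ) (hq : j < q) (hi : i ≤ j*r) : T j r i q 0 0 := by
  unfold T
  rw [Nat.div_eq_of_lt hq]
  have hq0 : 0 < q := by omega
  by_cases h1 : q ≤ i
  · by_cases h2 : q ∣ i+1
    · have := two_le_of i q h1 h2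
      have h3 : 2 ≤ (j*r+1)/q := by
        rw [Nat.le_div_iff_mul_le hq0]; omega
      rw [if_pos h1, if_pos h2]; omega
    · have h3 : 1 ≤ (j*r+1)/q := by
        rw [Nat.le_div_iff_mul_le hq0]; omega
      rw [if_pos h1, if_neg h2]; omega
  · by_cases h2 : q ∣ i+1
    · have := Nat.le_of_dvd (by omega) h2
      have h3 : 1 ≤ (j*r+1)/q := by
        rw [Nat.le_div_iff_mul_le hq0]; omega
      rw [if_neg h1, if_pos h2]; omega
    · rw [if_neg h1, if_neg h2]
      have := Nat.zero_le ((j*r+1)/q + mu j q i)
      simp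

lemma T_gt' (j r i q a' : ℕ) (hj : 0 < j) (hq : j < q) (h : (1 + a') * q ≤ j*r+1) :
    T j r i q 0 a' := by
  unfold T
  have hq0 : 0 < q := by omega
  rw [Nat.div_eq_of_lt hq]
  have h3 : 1 + a' ≤ (j*r+1)/q := by
    rw [Nat.le_div_iff_mul_le hq0]; exact h
  have h4 : (if q ≤ i then 1 else 0) ≤ mu j q i := by
    have h6 : i / q ≤ mu j q i := by
      unfold mu
      rw [if_pos hq]
      exact Nat.le_add_left _ _
    split_ifs with h5
    · have : 1 ≤ i / q := by
        rw [Nat.le_div_iff_mul_le hq0]; omega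
      exact le_trans this h6
    · exact Nat.zero_le _
  have h5 : (if q ∣ i+1 then 1 else 0) ≤ 1 := by split_ifs <;> omega
  omega

lemma T_le (j r i q a' : ℕ) (hq0 : 0 < q) (h : (2 + a') * q ≤ r * (j % q) + 1) :
    T j r i q 0 a' := by
  unfold T
  rw [split_div j r q hq0]
  have h3 : 2 + a' ≤ (r * (j % q) + 1)/q := by
    rw [Nat.le_div_iff_mul_le hq0]; exact h
  have h4 : (if q ≤ i then 1 else 0) ≤ 1 := by split_ifs <;> omega
  have h5 : (if q ∣ i+1 then 1 else 0) ≤ 1 := by split_ifs <;> omega
  omega

lemma T_le1 (j r i q : ℕ) (hq0 : 0 < q) (h : q ≤ r * (j % q) + 1) :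
    T j r i q 1 0 := by
  unfold T
  rw [split_div j r q hq0]
  have h3 : 1 ≤ (r * (j % q) + 1)/q := by
    rw [Nat.le_div_iff_mul_le hq0]; omega
  have h4 : (if q ≤ i then 1 else 0) ≤ 1 := by split_ifs <;> omega
  have h5 : (if q ∣ i+1 then 1 else 0) ≤ 1 := by split_ifs <;> omega
  omega

lemma T_dvd (j r i q : ℕ) (hq : 2 ≤ q) (hj : q ∣ j) : T j r i q 1 0 := by
  unfold T
  rw [split_div j r q (by omega)]
  have h4 : (if q ≤ i then 1 else 0) ≤ 1 := by split_ifs <;> omega
  have h5 : (if q ∣ i+1 then 1 else 0) ≤ mu j q i := by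
    unfold mu
    by_cases h : q ∣ i+1
    · have hni : ¬ q ∣ i := by
        intro h2
        have := (Nat.dvd_add_right h2).mp h
        have := Nat.le_of_dvd (by omega) this
        omega
      rw [if_pos h, if_pos ⟨hj, hni⟩]
      omega
    · rw [if_neg h]; exact Nat.zero_le _
  have h6 := Nat.zero_le ((r * (j % q) + 1) / q)
  generalize (r * (j % q) + 1) / q = A at *
  generalize r * (j / q) = A' at *
  omega

/-- odd `p` not dividing `j` -/
lemma main_A (p j r i B : ℕ) [hp : Fact p.Prime] (hp2 : p ≠ 2) (hj : Odd j)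
    (hjr : j ≤ r) (hpj : ¬ p ∣ j)
    (hB : j*r+1 < p^B) (hi : i ≤ j*r) :
    Nat.log p i + padicValNat p (i+1)
      ≤ padicValNat p (Cn j r) + ∑ b ∈ Ico 1 B, mu j (p^b) i := by
  refine assemble p j r i B hB hi (fun _ => 0) (fun _ => 0) ?_ le_rfl
  intro b hb
  rw [Finset.mem_Ico] at hb
  have hpodd : Odd p := hp.out.odd_of_ne_two hp2
  rcases Nat.lt_or_ge j (p^b) with h | h
  · exact T_gt j r i _ h hi
  · have hq0 : 0 < p^b := pow_pos hp.out.pos b
    apply T_le j r i _ 0 hq0
    have hw : j % p^b ≠ 0 := by
      intro h0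
      apply hpj
      exact dvd_trans (dvd_pow_self p (by omega)) (Nat.dvd_of_mod_eq_zero h0)
    by_cases hw2 : 2 ≤ j % p^b
    · nlinarith
    · have hw1 : j % p^b = 1 := by
        generalize j % p^b = w at *
        omega
      rw [hw1]
      have hqodd : Odd (p^b) := hpodd.pow
      have h1 := Nat.mod_add_div j (p^b)
      rw [hw1] at h1
      obtain ⟨u, hu⟩ := hj
      obtain ⟨v, hv⟩ := hqodd
      have h2 : 2 ≤ j / p^b := by
        by_contra hc
        have h3 : j / p^b = 0 ∨ j / p^b = 1 := by
          generalize j / p^b = w at *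
          omega
        rcases h3 with h3 | h3
        · have := Nat.div_eq_zero_iff.mp h3
          omega
        · rw [h3] at h1
          omega
      nlinarith

/-- `p = 2` -/
lemma main_B (j r i B : ℕ) (hj : Odd j) (hj3 : 3 ≤ j) (hr : Odd r)
    (hjr : j ≤ r) (hB : j*r+1 < 2^B) (hi : i ≤ j*r) :
    Nat.log 2 i + padicValNat 2 (i+1)
      ≤ padicValNat 2 (Cn j r) + ∑ b ∈ Ico 1 B, mu j (2^b) i := by
  have hmod : ∀ b, 1 ≤ b → j % 2^b % 2 = 1 := by
    intro b hb
    rw [Nat.mod_mod_of_dvd _ (dvd_pow_self 2 (by omega))]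
    exact Nat.odd_iff.mp hj
  rcases Nat.lt_or_ge r 5 with hr5 | hr5
  · have hr3 : r = 3 := by
      obtain ⟨u, hu⟩ := hr
      omega
    have hj3' : j = 3 := by omega
    subst hr3; subst hj3'
    refine assemble 2 3 3 i B hB hi (fun _ => 0) (fun _ => 0) ?_ le_rfl
    intro b hb
    rw [Finset.mem_Ico] at hb
    rcases Nat.lt_or_ge 3 (2^b) with h | h
    · exact T_gt 3 3 i _ h hi
    · have hb1 : b = 1 := by
        by_contra hne
        have : 2 ≤ b := by omega
        have : 2^2 ≤ 2^b := Nat.pow_le_pow_right (by norm_num) this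
        omega
      subst hb1
      apply T_le 3 3 i _ 0 (by norm_num)
      norm_num
  · have hB2 : 1 < B := by
      by_contra h
      have : 2^B ≤ 2^1 := Nat.pow_le_pow_right (by norm_num) (by omega)
      nlinarith
    refine assemble 2 j r i B hB hi (fun b => if b = Nat.log 2 (r+1) then 1 else 0)
      (fun b => if b = 1 then 1 else 0) ?_ ?_
    · intro b hb
      rw [Finset.mem_Ico] at hb
      have hlog2 : 2 ≤ Nat.log 2 (r+1) := by
        rw [Nat.le_log_iff_pow_le (by norm_num) (by omega)]
        omega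
      have hq0 : 0 < 2^b := by positivity
      have hm := hmod b hb.1
      by_cases hb1 : b = 1
      · subst hb1
        simp only [if_true]
        rw [if_neg (by omega)]
        apply T_le j r i _ 1 (by norm_num)
        have : j % 2^1 = 1 := by
          have := Nat.odd_iff.mp hj
          simpa using this
        rw [this]
        omega
      · simp only [if_neg hb1]
        rcases Nat.lt_or_ge j (2^b) with h | h
        · have := T_gt j r i _ h hi
          unfold T at *
          omega
        · by_cases hbl : b = Nat.log 2 (r+1)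
          · rw [if_pos hbl]
            apply T_le1 j r i _ hq0
            have : 1 ≤ j % 2^b := by omega
            nlinarith
          · rw [if_neg hbl]
            apply T_le j r i _ 0 hq0
            have h1 : b ≤ Nat.log 2 (r+1) := by
              rw [Nat.le_log_iff_pow_le (by norm_num) (by omega)]
              omega
            have h2 : b + 1 ≤ Nat.log 2 (r+1) := by omega
            have h3 : 2^(b+1) ≤ r+1 := by
              rw [← Nat.le_log_iff_pow_le (by norm_num) (by omega)]
              exact h2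
            have : 1 ≤ j % 2^b := by omega
            rw [pow_succ] at h3
            nlinarith
    · have e1 : ∑ b ∈ Ico 1 B, (if b = 1 then 1 else 0) = 1 := by
        rw [Finset.sum_ite_eq' (Ico 1 B) 1 (fun _ => 1)]
        rw [if_pos]
        rw [Finset.mem_Ico]; omega
      have e2 : ∑ b ∈ Ico 1 B, (if b = Nat.log 2 (r+1) then 1 else 0) ≤ 1 := by
        rw [Finset.sum_ite_eq' (Ico 1 B) _ (fun _ => 1)]
        split_ifs <;> omega
      rw [e1]; exact e2

/-- odd `p` dividing `j ≠ p` -/
lemma main_C (p j r i B : ℕ) [hp : Fact p.Prime] (hp2 : p ≠ 2) (hj0 : 0 < j)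
    (hjr : j ≤ r) (hpj : p ∣ j) (hne : j ≠ p)
    (hB : j*r+1 < p^B) (hBj : j + 1 < B) (hi : i ≤ j*r) :
    Nat.log p i + padicValNat p (i+1)
      ≤ padicValNat p (Cn j r) + ∑ b ∈ Ico 1 B, mu j (p^b) i := by
  have hp3 : 3 ≤ p := by
    have := hp.out.two_le
    omega
  set s := padicValNat p j with hs
  have hs1 : 1 ≤ s := one_le_padicValNat_of_dvd (by omega) hpj
  have hsj : p^s ∣ j := pow_padicValNat_dvd
  have hsn : ¬ p^(s+1) ∣ j := pow_succ_padicValNat_not_dvd (by omega)
  have hps : s + 2 ≤ p^s := by
    have h3 : ∀ t, 1 ≤ t → t + 2 ≤ 3^t := by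
      intro t ht
      induction t, ht using Nat.le_induction with
      | base => norm_num
      | succ t ht ih => rw [pow_succ]; omega
    exact le_trans (h3 s hs1) (Nat.pow_le_pow_left hp3 s)
  have hps0 : 0 < p^s := pow_pos hp.out.pos s
  have hle : p^s ≤ j := Nat.le_of_dvd hj0 hsj
  have hsB : s + 1 < B := by
    have : s < p^s := Nat.lt_pow_self hp.out.one_lt
    omega
  refine assemble p j r i B hB hi (fun b => if b ≤ s then 1 else 0)
      (fun b => if b = s+1 then s else 0) ?_ ?_
  · intro b hb
    rw [Finset.mem_Ico] at hb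
    have hq0 : 0 < p^b := pow_pos hp.out.pos b
    by_cases hbs : b ≤ s
    · simp only [if_pos hbs]
      rw [if_neg (by omega)]
      apply T_dvd j r i
      · calc 2 ≤ p := hp.out.two_le
          _ = p^1 := (pow_one p).symm
          _ ≤ p^b := Nat.pow_le_pow_right hp.out.pos hb.1
      · exact dvd_trans (pow_dvd_pow p hbs) hsj
    · simp only [if_neg hbs]
      have hsb : s + 1 ≤ b := by omega
      rcases Nat.lt_or_ge j (p^b) with h | h
      · by_cases hb1 : b = s+1
        · rw [if_pos hb1]
          apply T_gt' j r i _ s hj0 h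
          -- (1+s) p^(s+1) ≤ j r + 1
          rw [hb1]
          obtain ⟨u, hu⟩ := hsj
          have hu0 : 0 < u := by
            rcases Nat.eq_zero_or_pos u with h0 | h0
            · subst h0; omega
            · exact h0
          have hjj : j * j ≤ j * r := Nat.mul_le_mul_left j hjr
          have hkey : (1+s) * p^(s+1) ≤ j * j := by
            rcases Nat.lt_or_ge u 2 with hu1 | hu2
            · have hu1' : u = 1 := by omega
              subst hu1'
              rw [mul_one] at hu
              have hs2 : 2 ≤ s := by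
                by_contra hc
                have : s = 1 := by omega
                rw [this, pow_one] at hu
                exact hne hu
              obtain ⟨t, ht⟩ : ∃ t, s = t + 2 := ⟨s-2, by omega⟩
              have h3t : ∀ t, t + 3 ≤ 3^(t+1) := by
                intro t
                induction t with
                | zero => norm_num
                | succ t ih => rw [pow_succ]; omega
              have h4 : t + 3 ≤ p^(t+1) := le_trans (h3t t) (Nat.pow_le_pow_left hp3 _)
              rw [hu, ht]
              have e : p^(t+2) * p^(t+2) = p^(t+1) * p^(t+2+1) := by ring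
              rw [e]
              exact Nat.mul_le_mul_right _ (by omega)
            · obtain ⟨t, ht⟩ : ∃ t, s = t + 1 := ⟨s-1, by omega⟩
              have h3t : ∀ t, t + 2 ≤ 4 * 3^t := by
                intro t
                induction t with
                | zero => norm_num
                | succ t ih => rw [pow_succ]; omega
              have h4 : t + 2 ≤ 4 * p^t := le_trans (h3t t)
                (Nat.mul_le_mul_left 4 (Nat.pow_le_pow_left hp3 _))
              rw [hu, ht]
              have e : p^(t+1) * u * (p^(t+1) * u) = (u*u) * p^t * p^(t+1+1) := by ring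
              rw [e]
              apply Nat.mul_le_mul_right
              have : 4 * p^t ≤ u * u * p^t := Nat.mul_le_mul_right _ (by nlinarith)
              omega
          omega
        · rw [if_neg hb1]
          exact T_gt j r i _ h hi
      · have hw : j % p^b ≠ 0 := by
          intro h0
          exact hsn (dvd_trans (pow_dvd_pow p hsb) (Nat.dvd_of_mod_eq_zero h0))
        have hws : p^s ≤ j % p^b := by
          apply Nat.le_of_dvd (Nat.pos_of_ne_zero hw)
          exact (Nat.dvd_mod_iff (pow_dvd_pow p (by omega))).mpr hsj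
        have hT : T j r i (p^b) 0 s := by
          apply T_le j r i _ s hq0
          have h1 : p^b * (2+s) ≤ r * (j % p^b) :=
            Nat.mul_le_mul (le_trans h hjr) (by omega)
          calc (2+s) * p^b = p^b * (2+s) := by ring
            _ ≤ _ := by omega
        by_cases hb1 : b = s+1
        · rw [if_pos hb1]; exact hT
        · rw [if_neg hb1]
          unfold T at *
          omega
  · have e1 : ∑ b ∈ Ico 1 B, (if b = s+1 then s else 0) = s := by
      rw [Finset.sum_ite_eq' (Ico 1 B) (s+1) (fun _ => s)]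
      rw [if_pos]
      rw [Finset.mem_Ico]; omega
    have e2 : ∑ b ∈ Ico 1 B, (if b ≤ s then 1 else 0) ≤ s := by
      rw [← Finset.card_filter]
      have : (Ico 1 B).filter (fun b => b ≤ s) ⊆ Ico 1 (s+1) := by
        intro b hb
        rw [Finset.mem_filter, Finset.mem_Ico] at hb
        rw [Finset.mem_Ico]; omega
      have := Finset.card_le_card this
      rw [Nat.card_Ico] at this
      omega
    rw [e1]; exact e2

/-- `j = p`, `i + 1 ≠ p^2` -/
lemma main_D (p r i B : ℕ) [hp : Fact p.Prime] (hp2 : p ≠ 2)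
    (hjr : p ≤ r) (hB : p*r+1 < p^B) (hB2 : 2 < B) (hi : i ≤ p*r) (hi2 : i + 1 ≠ p^2) :
    Nat.log p i + padicValNat p (i+1)
      ≤ padicValNat p (Cn p r) + ∑ b ∈ Ico 1 B, mu p (p^b) i := by
  have hp3 : 3 ≤ p := by
    have := hp.out.two_le
    omega
  refine assemble p p r i B hB hi (fun b => if b = 1 then 1 else 0)
      (fun b => if b = 2 then 1 else 0) ?_ ?_
  · intro b hb
    rw [Finset.mem_Ico] at hb
    by_cases hb1 : b = 1
    · subst hb1
      simp only [if_true]
      rw [if_neg (by omega), pow_one]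
      exact T_dvd p r i p hp.out.two_le dvd_rfl
    · simp only [if_neg hb1]
      have hlt : p < p^b := by
        calc p = p^1 := (pow_one p).symm
          _ < p^b := Nat.pow_lt_pow_right hp.out.one_lt (by omega)
      by_cases hb2 : b = 2
      · subst hb2
        simp only [if_true]
        unfold T
        rw [Nat.div_eq_of_lt hlt]
        have hmu : i / p^2 ≤ mu p (p^2) i := by
          unfold mu
          rw [if_pos hlt]
          omega
        have hq0 : 0 < p^2 := pow_pos hp.out.pos 2
        have h1 : 1 ≤ (p*r+1)/p^2 := by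
          rw [Nat.le_div_iff_mul_le hq0]; nlinarith
        by_cases h2 : p^2 ≤ i
        · have h3 : 1 ≤ i / p^2 := by
            rw [Nat.le_div_iff_mul_le hq0]; omega
          by_cases h4 : p^2 ∣ i+1
          · have h5 := two_le_of i (p^2) h2 h4
            have h6 : 2 ≤ (p*r+1)/p^2 := by
              rw [Nat.le_div_iff_mul_le hq0]; omega
            rw [if_pos h2, if_pos h4]
            omega
          · rw [if_pos h2, if_neg h4]
            omega
        · have h4 : ¬ p^2 ∣ i+1 := by
            intro h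
            have := Nat.le_of_dvd (by omega) h
            omega
          rw [if_neg h2, if_neg h4]
          omega
      · rw [if_neg hb2]
        exact T_gt p r i _ hlt hi
  · have e1 : ∑ b ∈ Ico 1 B, (if b = 2 then 1 else 0) = 1 := by
      rw [Finset.sum_ite_eq' (Ico 1 B) 2 (fun _ => 1)]
      rw [if_pos]
      rw [Finset.mem_Ico]; omega
    have e2 : ∑ b ∈ Ico 1 B, (if b = 1 then 1 else 0) ≤ 1 := by
      rw [Finset.sum_ite_eq' (Ico 1 B) _ (fun _ => 1)]
      split_ifs <;> omega
    rw [e1]; exact e2

end Pool.Agent.R507.MP32
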