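import Pool.Agent.R507.MP32.Poly
import Pool.Agent.R507.MP32.Val

/-!
`n^2` divides `((j r + 1)! / (j!)^r) * ∑_{h<n} (h choose j)^r` for odd `3 ≤ j ≤ r`, `r` odd.
-/

namespace Pool.Agent.R507.MP32

open Finset

/-- `D n i = (n-1 choose i) - (-1)^i`. -/
def D (n i : ℕ) : ℤ := ((n-1).choose i : ℤ) - (-1)^i

lemma D_zero (n : ℕ) : D n 0 = 0 := by simp [D]

lemma D_succ (n i : ℕ) (hn : 1 ≤ n) : D n (i+1) = (n.choose (i+1) : ℤ) - D n i := by
  unfold D
  obtain ⟨m, rfl⟩ : ∃ m, n = m + 1 := ⟨n-1, by omega⟩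
  rw [Nat.add_sub_cancel, Nat.choose_succ_succ, pow_succ]
  push_cast
  ring

lemma succ_mul_choose' (n u : ℕ) (hu : 1 ≤ u) (hn : 1 ≤ n) :
    u * n.choose u = n * (n-1).choose (u-1) := by
  obtain ⟨m, rfl⟩ : ∃ m, n = m + 1 := ⟨n-1, by omega⟩
  obtain ⟨v, rfl⟩ : ∃ v, u = v + 1 := ⟨u-1, by omega⟩
  rw [Nat.add_sub_cancel, Nat.add_sub_cancel, Nat.add_one_mul_choose_eq]
  ring

lemma choose_dvd (p n u a : ℕ) [hp : Fact p.Prime] (hu : 1 ≤ u) (hn : 1 ≤ n) (ha : p^a ∣ n) :
    p^a ∣ p^(padicValNat p u) * n.choose u := by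
  have h1 := succ_mul_choose' n u hu hn
  have h2 : p^a ∣ u * n.choose u := by
    rw [h1]; exact dvd_mul_of_dvd_left ha _
  obtain ⟨w, hw⟩ : p^(padicValNat p u) ∣ u := pow_padicValNat_dvd
  have hpw : ¬ p ∣ w := by
    rintro ⟨x, hx⟩
    apply pow_succ_padicValNat_not_dvd (p := p) (n := u) (by omega)
    refine ⟨x, ?_⟩
    calc u = p^(padicValNat p u) * w := hw
      _ = _ := by rw [hx, pow_succ]; ring
  have hcop : Nat.Coprime (p^a) w := Nat.Coprime.pow_left a ((Nat.Prime.coprime_iff_not_dvd hp.out).mpr hpw)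
  apply hcop.dvd_of_dvd_mul_left
  have e : w * (p ^ padicValNat p u * n.choose u) = u * n.choose u := by
    calc w * (p ^ padicValNat p u * n.choose u)
        = (p ^ padicValNat p u * w) * n.choose u := by ring
      _ = u * n.choose u := by rw [← hw]
  rw [e]; exact h2

lemma val_le_log (p u : ℕ) [hp : Fact p.Prime] (hu : 1 ≤ u) : padicValNat p u ≤ Nat.log p u := by
  rw [Nat.le_log_iff_pow_le hp.out.one_lt (by omega)]
  exact Nat.le_of_dvd (by omega) pow_padicValNat_dvd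

lemma D_dvd (p n a : ℕ) [hp : Fact p.Prime] (hn : 1 ≤ n) (ha : p^a ∣ n) (i : ℕ) :
    (p:ℤ)^a ∣ (p:ℤ)^(Nat.log p i) * D n i := by
  induction i with
  | zero => rw [D_zero]; simp
  | succ i ih =>
    rw [D_succ n i hn, mul_sub]
    apply dvd_sub
    · have h1 := choose_dvd p n (i+1) a (by omega) hn ha
      have h2 : p^a ∣ p^(Nat.log p (i+1)) * n.choose (i+1) := by
        refine dvd_trans h1 (Nat.mul_dvd_mul_right (pow_dvd_pow p (val_le_log p (i+1) (by omega))) _)
      exact_mod_cast h2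
    · obtain ⟨k, hk⟩ := pow_dvd_pow (p:ℤ) (Nat.log_mono_right (b := p) (Nat.le_succ i))
      have : (p:ℤ)^(Nat.log p (i+1)) = (p:ℤ)^(Nat.log p i) * k := hk
      rw [this]
      have e : (p:ℤ)^(Nat.log p i) * k * D n i = k * ((p:ℤ)^(Nat.log p i) * D n i) := by ring
      rw [e]
      exact dvd_mul_of_dvd_right ih k

/-- the identity `C F(n) = n ∑ C c_i D_i / (i+1)` -/
lemma key_id (j r n : ℕ) (hj : Odd j) (hr : Odd r) (hr2 : 2 ≤ r) (hn : 1 ≤ n) :
    ((Cn j r * ∑ h ∈ range n, (h.choose j)^r : ℕ) : ℚ)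
      = (n:ℚ) * ∑ i ∈ range (j*r+1), (((Cn j r * cc j r i : ℕ) : ℤ) * D n i : ℤ) / ((i+1 : ℕ) : ℚ) := by
  have h1 := alt_sum j r hj hr hr2
  rw [sum_F]
  have h2 : ∑ i ∈ range (j*r+1), (((Cn j r * cc j r i : ℕ) : ℤ) * D n i : ℤ) / ((i+1 : ℕ) : ℚ)
      = ∑ i ∈ range (j*r+1), ((Cn j r : ℚ) * cc j r i * ((n-1).choose i : ℚ) / ((i:ℚ)+1))
        - (Cn j r : ℚ) * ∑ i ∈ range (j*r+1), (cc j r i : ℚ) * (-1)^i / ((i:ℚ)+1) := by
    rw [Finset.mul_sum, ← Finset.sum_sub_distrib]
    refine Finset.sum_congr rfl ?_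
    intro i _
    unfold D
    push_cast
    ring
  rw [h2, h1, mul_zero, sub_zero]
  push_cast
  rw [Finset.mul_sum, Finset.mul_sum]
  refine Finset.sum_congr rfl ?_
  intro i _
  have h3 := succ_mul_choose' n (i+1) (by omega) hn
  rw [Nat.add_sub_cancel] at h3
  have h4 : ((i:ℚ)+1) * (n.choose (i+1) : ℚ) = n * ((n-1).choose i : ℚ) := by exact_mod_cast h3
  have h5 : (i:ℚ) + 1 ≠ 0 := by positivity
  field_simp
  linear_combination (Cn j r : ℚ) * cc j r i * h4

lemma fin (p j r n a : ℕ) [hp : Fact p.Prime] (hj : Odd j) (hr : Odd r) (hr2 : 2 ≤ r)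
    (hn : 1 ≤ n) (ha : p^a ∣ n)
    (H : ∀ i ∈ range (j*r+1),
      (p:ℤ)^(a + padicValNat p (i+1)) ∣ ((Cn j r * cc j r i : ℕ) : ℤ) * D n i) :
    p^(2*a) ∣ Cn j r * ∑ h ∈ range n, (h.choose j)^r := by
  have h0 : ((p^(2*a) : ℕ) : ℤ) ∣ ((Cn j r * ∑ h ∈ range n, (h.choose j)^r : ℕ) : ℤ) := by
    rw [padicNorm.dvd_iff_norm_le]
    have h1 := key_id j r n hj hr hr2 hn
    have e : (((Cn j r * ∑ h ∈ range n, (h.choose j)^r : ℕ) : ℤ) : ℚ)
        = ((Cn j r * ∑ h ∈ range n, (h.choose j)^r : ℕ) : ℚ) := by push_cast; rfl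
    rw [e, h1, padicNorm.mul]
    have hpn : padicNorm p (n:ℚ) ≤ (p:ℚ)^(-(a:ℤ)) := by
      have := (padicNorm.dvd_iff_norm_le (p := p) (n := a) (z := (n:ℤ))).mp (by exact_mod_cast ha)
      simpa using this
    have hsum : padicNorm p (∑ i ∈ range (j*r+1),
        (((Cn j r * cc j r i : ℕ) : ℤ) * D n i : ℤ) / ((i+1 : ℕ) : ℚ)) ≤ (p:ℚ)^(-(a:ℤ)) := by
      apply padicNorm.sum_le
      · exact ⟨0, by rw [Finset.mem_range]; omega⟩
      · intro i hi
        have h2 := H i hi
        rw [padicNorm.div]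
        have h3 : padicNorm p ((((Cn j r * cc j r i : ℕ) : ℤ) * D n i : ℤ) : ℚ)
            ≤ (p:ℚ)^(-((a + padicValNat p (i+1) : ℕ):ℤ)) :=
          (padicNorm.dvd_iff_norm_le).mp (by exact_mod_cast h2)
        have h4 : padicNorm p ((i+1 : ℕ) : ℚ) = (p:ℚ)^(-((padicValNat p (i+1) : ℕ):ℤ)) := by
          rw [padicNorm.eq_zpow_of_nonzero (by exact_mod_cast Nat.succ_ne_zero i),
            padicValRat.of_nat]
        have hp0 : (0:ℚ) < p := by exact_mod_cast hp.out.pos
        rw [h4, div_le_iff₀ (zpow_pos hp0 _), ← zpow_add₀ hp0.ne']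
        refine le_trans h3 (le_of_eq ?_)
        congr 1
        push_cast
        ring
    have hp0 : (0:ℚ) < p := by exact_mod_cast hp.out.pos
    calc padicNorm p (n:ℚ) * padicNorm p (∑ i ∈ range (j*r+1),
        (((Cn j r * cc j r i : ℕ) : ℤ) * D n i : ℤ) / ((i+1 : ℕ) : ℚ))
        ≤ (p:ℚ)^(-(a:ℤ)) * (p:ℚ)^(-(a:ℤ)) :=
          mul_le_mul hpn hsum (padicNorm.nonneg _) (zpow_pos hp0 _).le
      _ = _ := by
        rw [← zpow_add₀ hp0.ne']
        congr 1
        push_cast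
        ring
  exact_mod_cast h0

/-- the standard estimate for one term -/
lemma term_std (p j r n a i B : ℕ) [hp : Fact p.Prime] (hj0 : 0 < j) (hn : 1 ≤ n) (ha : p^a ∣ n)
    (hB : j*r+1 < p^B) (hi : i ≤ j*r)
    (hval : Nat.log p i + padicValNat p (i+1)
      ≤ padicValNat p (Cn j r) + ∑ b ∈ Ico 1 B, mu j (p^b) i) :
    (p:ℤ)^(a + padicValNat p (i+1)) ∣ ((Cn j r * cc j r i : ℕ) : ℤ) * D n i := by
  have h1 : p^(Nat.log p i + padicValNat p (i+1)) ∣ Cn j r * cc j r i := by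
    refine dvd_trans (pow_dvd_pow p hval) ?_
    rw [pow_add]
    exact mul_dvd_mul pow_padicValNat_dvd (cc_val p j B hj0 r i (by omega))
  obtain ⟨z, hz⟩ := h1
  have h2 := D_dvd p n a hn ha i
  rw [hz]
  push_cast
  have e : (p:ℤ)^(Nat.log p i + padicValNat p (i+1)) * z * D n i
      = (p:ℤ)^(padicValNat p (i+1)) * ((p:ℤ)^(Nat.log p i) * D n i) * z := by
    rw [pow_add]; ring
  rw [e, pow_add, mul_comm ((p:ℤ)^a)]
  exact dvd_mul_of_dvd_left (mul_dvd_mul_left _ h2) z

/-! ### The special index `i = p^2 - 1` when `j = p` -/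

lemma choose_dvd' (p n u a : ℕ) [hp : Fact p.Prime] (hu : 1 ≤ u) (hn : 1 ≤ n) (ha : p^a ∣ n)
    (hpu : ¬ p ∣ u) : (p:ℤ)^a ∣ (n.choose u : ℤ) := by
  have h1 := choose_dvd p n u a hu hn ha
  rw [padicValNat.eq_zero_of_not_dvd hpu, pow_zero, one_mul] at h1
  exact_mod_cast h1

lemma D_block (p n a : ℕ) [hp : Fact p.Prime] (hn : 1 ≤ n) (ha : p^a ∣ n) (t w : ℕ) (hw : w < p) :
    D n (p*t+w) ≡ (-1)^w * D n (p*t) [ZMOD (p:ℤ)^a] := by
  induction w with
  | zero => simp
  | succ w ih =>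
    have h1 := ih (by omega)
    rw [← Nat.add_assoc, D_succ n _ hn]
    have h2 : (n.choose (p*t+w+1) : ℤ) ≡ 0 [ZMOD (p:ℤ)^a] := by
      rw [Int.modEq_zero_iff_dvd]
      apply choose_dvd' p n _ a (by omega) hn ha
      intro h
      have : p ∣ w + 1 := by
        rw [Nat.add_assoc] at h
        exact (Nat.dvd_add_right (dvd_mul_right p t)).mp h
      have := Nat.le_of_dvd (by omega) this
      omega
    have h3 := h2.sub h1
    refine h3.trans ?_
    rw [pow_succ]
    have e : 0 - (-1)^w * D n (p*t) = (-1)^w * -1 * D n (p*t) := by ring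
    rw [e]

lemma g_step (p n a : ℕ) [hp : Fact p.Prime] (hp2 : p ≠ 2) (hn : 1 ≤ n) (ha : p^a ∣ n) (t : ℕ) :
    D n (p*t+(p-1)) ≡ (-1)^t * ∑ l ∈ range t, (-1)^(l+1) * (n.choose (p*(l+1)) : ℤ)
      [ZMOD (p:ℤ)^a] := by
  have hodd := hp.out.odd_of_ne_two hp2
  have heven : Even (p-1) := by
    obtain ⟨k, hk⟩ := hodd
    exact ⟨k, by omega⟩
  have hpos := hp.out.pos
  induction t with
  | zero =>
    have := D_block p n a hn ha 0 (p-1) (by omega)
    rw [Nat.mul_zero, D_zero, mul_zero] at this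
    simpa using this
  | succ t ih =>
    have h1 := D_block p n a hn ha (t+1) (p-1) (by omega)
    rw [heven.neg_one_pow, one_mul] at h1
    refine h1.trans ?_
    have e : p*(t+1) = (p*t+(p-1)) + 1 := by
      rw [Nat.mul_succ]; omega
    have h2 : D n (p*(t+1)) = (n.choose (p*(t+1)) : ℤ) - D n (p*t+(p-1)) := by
      rw [e, D_succ n _ hn]
    rw [h2, Finset.sum_range_succ]
    have h3 := (Int.ModEq.refl (n.choose (p*(t+1)) : ℤ) (n := (p:ℤ)^a)).sub ih
    refine h3.trans ?_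
    have e2 : ((n.choose (p*(t+1)) : ℤ)) - (-1)^t * ∑ l ∈ range t, (-1)^(l+1) * (n.choose (p*(l+1)) : ℤ)
        = (-1)^(t+1) * (∑ l ∈ range t, (-1)^(l+1) * (n.choose (p*(l+1)) : ℤ)
          + (-1)^(t+1) * (n.choose (p*(t+1)) : ℤ)) := by
      have hs : ((-1:ℤ)^t)*((-1)^t) = 1 := by
        rw [← pow_add, ← two_mul, pow_mul]; norm_num
      generalize (∑ l ∈ range t, (-1) ^ (l + 1) * (n.choose (p * (l + 1)) : ℤ)) = S
      rw [pow_succ]
      linear_combination (-(n.choose (p*(t+1)) : ℤ)) * hs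
    rw [e2]

lemma E_mul (p n a : ℕ) [hp : Fact p.Prime] (hp2 : p ≠ 2) (hn : 1 ≤ n) (ha : p^a ∣ n) (ha2 : 2 ≤ a)
    (t : ℕ) (ht : 1 ≤ t) (htp : t < p) :
    (t:ℤ) * ((-1)^t * (n.choose (p*t) : ℤ)) ≡ -((n / p : ℕ) : ℤ) [ZMOD (p:ℤ)^a] := by
  have hodd := hp.out.odd_of_ne_two hp2
  have hpos := hp.out.pos
  have hpn : p ∣ n := dvd_trans (dvd_pow_self p (by omega)) ha
  obtain ⟨m, hm⟩ := hpn
  have hm' : n / p = m := by rw [hm]; exact Nat.mul_div_cancel_left m hpos
  have hpt : 1 ≤ p * t := Nat.mul_pos hpos ht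
  have h1 := succ_mul_choose' n (p*t) hpt hn
  have h2 : (t:ℤ) * (n.choose (p*t) : ℤ) = m * ((n-1).choose (p*t-1) : ℤ) := by
    have : t * n.choose (p*t) = m * (n-1).choose (p*t-1) := by
      apply Nat.eq_of_mul_eq_mul_left hpos
      rw [← mul_assoc, h1, ← mul_assoc, ← hm]
    exact_mod_cast this
  have h3 : ((n-1).choose (p*t-1) : ℤ) = D n (p*t-1) + (-1)^(p*t-1) := by
    unfold D; ring
  have h4 : (p:ℤ)^(a-1) ∣ D n (p*t-1) := by
    have h5 := D_dvd p n a hn ha (p*t-1)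
    have hlog : Nat.log p (p*t-1) ≤ 1 := by
      by_contra hc
      have : p^2 ≤ p*t-1 := by
        rcases Nat.eq_zero_or_pos (p*t-1) with h0 | h0
        · rw [h0, Nat.log_zero_right] at hc; omega
        · rw [← Nat.le_log_iff_pow_le hp.out.one_lt (by omega)]
          omega
      have : p * t ≤ p * p := Nat.mul_le_mul_left p htp.le
      rw [pow_two] at *
      omega
    have h6 : (p:ℤ)^a ∣ (p:ℤ)^1 * D n (p*t-1) := by
      obtain ⟨k, hk⟩ := pow_dvd_pow (p:ℤ) hlog
      have e : (p:ℤ)^1 * D n (p*t-1) = k * ((p:ℤ)^(Nat.log p (p*t-1)) * D n (p*t-1)) := by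
        rw [hk]; ring
      rw [e]
      exact dvd_mul_of_dvd_right h5 k
    have e : (p:ℤ)^a = (p:ℤ)^1 * (p:ℤ)^(a-1) := by
      rw [← pow_add]; congr 1; omega
    rw [e] at h6
    exact (mul_dvd_mul_iff_left (by positivity)).mp h6
  have h5 : (p:ℤ)^(a-1) ∣ (m:ℤ) := by
    have : p^a ∣ p * m := by rw [← hm]; exact ha
    have e : p^a = p * p^(a-1) := by
      rw [← pow_succ']; congr 1; omega
    rw [e] at this
    have := (Nat.mul_dvd_mul_iff_left hpos).mp this
    exact_mod_cast this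
  have h6 : (p:ℤ)^a ∣ (m:ℤ) * D n (p*t-1) := by
    refine dvd_trans (pow_dvd_pow (p:ℤ) (show a ≤ (a-1)+(a-1) by omega)) ?_
    rw [pow_add]
    exact mul_dvd_mul h5 h4
  have h7 : ((-1:ℤ))^t * (-1)^(p*t-1) = -1 := by
    rw [← pow_add]
    apply Odd.neg_one_pow
    have : t + (p*t-1) = (p+1)*t - 1 := by
      rw [Nat.add_mul]; omega
    rw [this]
    have h8 : Even ((p+1)*t) := (hodd.add_one).mul_right t
    obtain ⟨k, hk⟩ := h8
    have : 1 ≤ (p+1)*t := Nat.mul_pos (by omega) ht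
    exact ⟨k-1, by omega⟩
  rw [hm']
  have e : (t:ℤ) * ((-1)^t * (n.choose (p*t) : ℤ))
      = -(m:ℤ) + (-1)^t * ((m:ℤ) * D n (p*t-1)) := by
    calc (t:ℤ) * ((-1)^t * (n.choose (p*t) : ℤ)) = (-1)^t * ((t:ℤ) * (n.choose (p*t) : ℤ)) := by ring
      _ = (-1)^t * (m * (D n (p*t-1) + (-1)^(p*t-1))) := by rw [h2, h3]
      _ = ((-1)^t * (-1)^(p*t-1)) * m + (-1)^t * ((m:ℤ) * D n (p*t-1)) := by ring
      _ = _ := by rw [h7]; ring
  rw [e]
  have h9 : (-1)^t * ((m:ℤ) * D n (p*t-1)) ≡ 0 [ZMOD (p:ℤ)^a] := by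
    rw [Int.modEq_zero_iff_dvd]
    exact dvd_mul_of_dvd_right h6 _
  simpa using (Int.ModEq.refl (-(m:ℤ)) (n := (p:ℤ)^a)).add h9

lemma D_special (p n a : ℕ) [hp : Fact p.Prime] (hp2 : p ≠ 2) (hn : 1 ≤ n) (ha : p^a ∣ n)
    (ha2 : 2 ≤ a) : (p:ℤ)^a ∣ D n (p^2-1) := by
  have hodd := hp.out.odd_of_ne_two hp2
  have hpos := hp.out.pos
  have hp3 : 3 ≤ p := by
    have := hp.out.two_le
    omega
  have heven : Even (p-1) := by
    obtain ⟨k, hk⟩ := hodd
    exact ⟨k, by omega⟩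
  have h1 := g_step p n a hp2 hn ha (p-1)
  have e1 : p*(p-1)+(p-1) = p^2-1 := by
    obtain ⟨q, rfl⟩ : ∃ q, p = q + 1 := ⟨p-1, by omega⟩
    rw [Nat.add_sub_cancel]
    have : (q+1)^2 = (q+1)*q + q + 1 := by ring
    omega
  rw [e1, heven.neg_one_pow, one_mul] at h1
  set S := ∑ l ∈ range (p-1), (-1)^(l+1) * (n.choose (p*(l+1)) : ℤ) with hS
  have hcop : ∀ t : ℕ, 1 ≤ t → t < p → IsCoprime ((p:ℤ)^a) (t:ℤ) := by
    intro t ht htp
    apply IsCoprime.pow_left
    rw [Nat.isCoprime_iff_coprime]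
    exact (Nat.Prime.coprime_iff_not_dvd hp.out).mpr (Nat.not_dvd_of_pos_of_lt ht htp)
  have h2S : (p:ℤ)^a ∣ 2 * S := by
    have e2 : 2 * S = ∑ l ∈ range (p-1), ((-1)^(l+1) * (n.choose (p*(l+1)) : ℤ)
        + (-1)^(p-1-l) * (n.choose (p*(p-1-l)) : ℤ)) := by
      rw [Finset.sum_add_distrib, ← hS, two_mul]
      congr 1
      rw [hS, ← Finset.sum_range_reflect]
      refine Finset.sum_congr rfl ?_
      intro l hl
      rw [Finset.mem_range] at hl
      have : p - 1 - 1 - l + 1 = p - 1 - l := by omega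
      rw [this]
    rw [e2]
    apply Finset.dvd_sum
    intro l hl
    rw [Finset.mem_range] at hl
    have hA := E_mul p n a hp2 hn ha ha2 (l+1) (by omega) (by omega)
    have hB := E_mul p n a hp2 hn ha ha2 (p-1-l) (by omega) (by omega)
    set x := (-1)^(l+1) * (n.choose (p*(l+1)) : ℤ) with hx
    set y := (-1)^(p-1-l) * (n.choose (p*(p-1-l)) : ℤ) with hy
    have hc : (((l+1 : ℕ)) : ℤ) + (((p-1-l : ℕ)) : ℤ) = p := by
      have : l + 1 + (p-1-l) = p := by omega
      exact_mod_cast this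
    have hnp : (p:ℤ) * ((n/p : ℕ) : ℤ) = n := by
      have : p * (n/p) = n := Nat.mul_div_cancel' (dvd_trans (dvd_pow_self p (by omega)) ha)
      exact_mod_cast this
    have h3 : (p:ℤ)^a ∣ ((l+1 : ℕ) : ℤ) * ((p-1-l : ℕ) : ℤ) * (x + y) := by
      have h4 := (hA.mul_left (((p-1-l : ℕ)) : ℤ)).add (hB.mul_left (((l+1 : ℕ)) : ℤ))
      rw [← Int.modEq_zero_iff_dvd]
      have e3 : ((l+1 : ℕ) : ℤ) * ((p-1-l : ℕ) : ℤ) * (x + y)
          = (((p-1-l : ℕ)) : ℤ) * (((l+1 : ℕ) : ℤ) * x)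
            + (((l+1 : ℕ)) : ℤ) * (((p-1-l : ℕ) : ℤ) * y) := by ring
      rw [e3]
      refine h4.trans ?_
      rw [Int.modEq_zero_iff_dvd]
      have e4 : (((p-1-l : ℕ)) : ℤ) * -((n/p : ℕ) : ℤ) + (((l+1 : ℕ)) : ℤ) * -((n/p : ℕ) : ℤ)
          = -(n:ℤ) := by
        rw [← hnp, ← hc]; ring
      rw [e4, dvd_neg]
      exact_mod_cast ha
    have hc1 := hcop (l+1) (by omega) (by omega)
    have hc2 := hcop (p-1-l) (by omega) (by omega)
    exact (hc1.mul_right hc2).dvd_of_dvd_mul_left h3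
  have h2cop : IsCoprime ((p:ℤ)^a) (2:ℤ) := by
    have := hcop 2 (by omega) (by omega)
    exact_mod_cast this
  have hSd : (p:ℤ)^a ∣ S := h2cop.dvd_of_dvd_mul_left h2S
  exact (Int.modEq_zero_iff_dvd).mp (h1.trans ((Int.modEq_zero_iff_dvd).mpr hSd))

/-! ### Assembly -/

lemma prime_part (p j r n a : ℕ) [hp : Fact p.Prime] (hj : Odd j) (hj3 : 3 ≤ j) (hr : Odd r)
    (hjr : j ≤ r) (hn : 1 ≤ n) (ha : p^a ∣ n) :
    p^(2*a) ∣ Cn j r * ∑ h ∈ range n, (h.choose j)^r := by
  have hB : j*r+1 < p^(j*r+2) := lt_of_lt_of_le (Nat.lt_pow_self hp.out.one_lt) 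
    (Nat.pow_le_pow_right hp.out.pos (by omega))
  have hjr3 : 3 * j ≤ j * r := by nlinarith
  have hj0 : 0 < j := by omega
  by_cases hp2 : p = 2
  · subst hp2
    apply fin 2 j r n a hj hr (by omega) hn ha
    intro i hi
    rw [Finset.mem_range] at hi
    exact term_std 2 j r n a i (j*r+2) hj0 hn ha hB (by omega)
      (main_B j r i (j*r+2) hj hj3 hr hjr hB (by omega))
  · by_cases hpj : p ∣ j
    · by_cases hne : j = p
      · -- the case j = p
        subst hne
        have hCpos : 1 ≤ padicValNat j (Cn j r) := by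
          -- use i = 0: trivial term gives nothing; use Legendre directly
          have h1 := Cn_val j j r (j*r+2) hB
          have h2 : ∑ b ∈ Ico 1 (j*r+2), (r * (j / j^b) + (if b = 2 then 1 else 0))
              ≤ ∑ b ∈ Ico 1 (j*r+2), (j*r+1) / j^b := by
            refine Finset.sum_le_sum ?_
            intro b hb
            rw [Finset.mem_Ico] at hb
            have hq0 : 0 < j^b := pow_pos hj0 b
            by_cases hb2 : b = 2
            · subst hb2
              rw [if_pos rfl]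
              have : j < j^2 := by nlinarith
              rw [Nat.div_eq_of_lt this, mul_zero, zero_add, Nat.le_div_iff_mul_le hq0]
              nlinarith
            · rw [if_neg hb2, add_zero, split_div j r _ hq0]
              exact Nat.le_add_right _ _
          rw [Finset.sum_add_distrib] at h2
          have h3 : ∑ b ∈ Ico 1 (j*r+2), (if b = 2 then 1 else 0) = 1 := by
            rw [Finset.sum_ite_eq' (Ico 1 (j*r+2)) 2 (fun _ => 1)]
            rw [if_pos]
            rw [Finset.mem_Ico]; omega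
          omega
        have hmu : ∀ i, ¬ j ∣ i → i < j^(j*r+2) → j ∣ cc j r i := by
          intro i hi hiB
          refine dvd_trans ?_ (cc_val j j (j*r+2) hj0 r i hiB)
          apply dvd_pow_self
          have h1 : mu j (j^1) i ≤ ∑ b ∈ Ico 1 (j*r+2), mu j (j^b) i :=
            Finset.single_le_sum (f := fun b => mu j (j^b) i) (fun _ _ => Nat.zero_le _)
              (by rw [Finset.mem_Ico]; omega)
          have h2 : 1 ≤ mu j (j^1) i := by
            unfold mu
            rw [pow_one, if_pos ⟨dvd_rfl, hi⟩]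
            exact Nat.le_add_right _ _
          omega
        have hCd : j ∣ Cn j r := by
          have := pow_padicValNat_dvd (p := j) (n := Cn j r)
          exact dvd_trans (dvd_pow_self j (by omega)) this
        rcases Nat.lt_or_ge a 2 with ha2 | ha2
        · have ha01 : a = 0 ∨ a = 1 := by omega
          rcases ha01 with h | h
          · subst h; simp
          · subst h
            rw [mul_one, pow_two, sum_F]
            apply mul_dvd_mul hCd
            apply Finset.dvd_sum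
            intro i hi
            rw [Finset.mem_range] at hi
            by_cases hji : j ∣ i+1
            · apply dvd_mul_of_dvd_left
              apply hmu i _ (by omega)
              intro h
              have := (Nat.dvd_add_right h).mp hji
              have := Nat.le_of_dvd (by omega) this
              omega
            · apply dvd_mul_of_dvd_right
              have := choose_dvd j n (i+1) 1 (by omega) hn ha
              rw [padicValNat.eq_zero_of_not_dvd hji, pow_zero, one_mul, pow_one] at this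
              exact this
        · apply fin j j r n a hj hr (by omega) hn ha
          intro i hi
          rw [Finset.mem_range] at hi
          by_cases hi2 : i + 1 = j^2
          · -- special index
            rw [hi2, padicValNat.prime_pow]
            have hi3 : i = j^2 - 1 := by omega
            have h1 : (j:ℤ)^a ∣ D n i := by
              rw [hi3]; exact D_special j n a hp2 hn ha ha2
            have h2 : j^2 ∣ Cn j r * cc j r i := by
              rw [pow_two]
              apply mul_dvd_mul hCd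
              apply hmu i _ (by omega)
              intro h
              have hji : j ∣ i+1 := by rw [hi2]; exact dvd_pow_self j (by norm_num)
              have := (Nat.dvd_add_right h).mp hji
              have := Nat.le_of_dvd (by omega) this
              omega
            have h3 : (j:ℤ)^2 ∣ ((Cn j r * cc j r i : ℕ) : ℤ) := by exact_mod_cast h2
            rw [add_comm, pow_add]
            exact mul_dvd_mul h3 h1
          · exact term_std j j r n a i (j*r+2) hj0 hn ha hB (by omega)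
              (main_D j r i (j*r+2) hp2 hjr hB (by omega) (by omega) hi2)
      · apply fin p j r n a hj hr (by omega) hn ha
        intro i hi
        rw [Finset.mem_range] at hi
        exact term_std p j r n a i (j*r+2) hj0 hn ha hB (by omega)
          (main_C p j r i (j*r+2) hp2 hj0 hjr hpj hne hB (by omega) (by omega))
    · apply fin p j r n a hj hr (by omega) hn ha
      intro i hi
      rw [Finset.mem_range] at hi
      exact term_std p j r n a i (j*r+2) hj0 hn ha hB (by omega)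
        (main_A p j r i (j*r+2) hp2 hj hjr hpj hB (by omega))

theorem main (j r n : ℕ) (hj : Odd j) (hj3 : 3 ≤ j) (hr : Odd r) (hjr : j ≤ r) (hn : 1 ≤ n) :
    n^2 ∣ Cn j r * ∑ h ∈ range n, (h.choose j)^r := by
  rw [Nat.dvd_iff_prime_pow_dvd_dvd]
  intro p k hp hk
  have : Fact p.Prime := ⟨hp⟩
  have h1 : k ≤ 2 * padicValNat p n := by
    have h2 := (padicValNat_dvd_iff_le (p := p) (a := n^2) (n := k) (by positivity)).mp hk
    rw [padicValNat.pow] at h2
    exact h2
  exact dvd_trans (pow_dvd_pow p h1)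
    (prime_part p j r n (padicValNat p n) hj hj3 hr hjr hn pow_padicValNat_dvd)

end Pool.Agent.R507.MP32
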