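import Pool.Agent.R507.MP32.Coef

/-!
The linear coefficient of the polynomial `n ↦ ∑_{h<n} (h choose j)^r` vanishes
for odd `j`, `r` with `r ≥ 2`.
-/

namespace Pool.Agent.R507.MP32

open Finset Polynomial

noncomputable def P (j r : ℕ) : ℚ[X] :=
  ∑ i ∈ range (j*r+1), C ((cc j r i : ℚ) / ((i+1).factorial : ℚ)) * descPochhammer ℚ (i+1)

noncomputable def R (j : ℕ) : ℚ[X] := C (1 / (j.factorial : ℚ)) * descPochhammer ℚ j

lemma eval_desc (i n : ℕ) : (descPochhammer ℚ i).eval (n : ℚ) = (i.factorial : ℚ) * (n.choose i : ℚ) := by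
  rw [descPochhammer_eval_eq_descFactorial, Nat.descFactorial_eq_factorial_mul_choose]
  push_cast; ring

lemma eval_R (j n : ℕ) : (R j).eval (n : ℚ) = (n.choose j : ℚ) := by
  unfold R
  rw [eval_mul, eval_C, eval_desc]
  have : (j.factorial : ℚ) ≠ 0 := by exact_mod_cast Nat.factorial_ne_zero j
  field_simp

lemma sum_range_choose' (i n : ℕ) : ∑ h ∈ range n, h.choose i = n.choose (i+1) := by
  induction n with
  | zero => simp
  | succ n ih => rw [Finset.sum_range_succ, ih, Nat.choose_succ_succ, Nat.add_comm]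

lemma sum_F (j r n : ℕ) :
    ∑ h ∈ range n, (h.choose j)^r = ∑ i ∈ range (j*r+1), cc j r i * n.choose (i+1) := by
  calc ∑ h ∈ range n, (h.choose j)^r
      = ∑ h ∈ range n, ∑ i ∈ range (j*r+1), cc j r i * h.choose i := by
        refine Finset.sum_congr rfl ?_
        intro h _
        exact choose_pow j h r (j*r+1) (by omega)
    _ = ∑ i ∈ range (j*r+1), ∑ h ∈ range n, cc j r i * h.choose i := Finset.sum_comm
    _ = _ := by
        refine Finset.sum_congr rfl ?_
        intro i _
        rw [← Finset.mul_sum, sum_range_choose']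

lemma eval_P (j r n : ℕ) : (P j r).eval (n : ℚ) = ((∑ h ∈ range n, (h.choose j)^r : ℕ) : ℚ) := by
  unfold P
  rw [eval_finsetSum, sum_F]
  push_cast
  refine Finset.sum_congr rfl ?_
  intro i _
  rw [eval_mul, eval_C, eval_desc]
  have : ((i+1).factorial : ℚ) ≠ 0 := by exact_mod_cast Nat.factorial_ne_zero (i+1)
  field_simp

lemma ext_nat {p q : ℚ[X]} (h : ∀ n : ℕ, p.eval (n : ℚ) = q.eval (n : ℚ)) : p = q := by
  apply Polynomial.eq_of_infinite_eval_eq
  refine Set.Infinite.mono (s := Set.range (fun n : ℕ => (n : ℚ))) ?_ ?_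
  · rintro _ ⟨n, rfl⟩
    exact h n
  · exact Set.infinite_range_of_injective Nat.cast_injective

lemma P_step (j r : ℕ) : (P j r).comp (X + 1) = P j r + (R j)^r := by
  apply ext_nat
  intro n
  rw [eval_comp, eval_add, eval_add, eval_X, eval_one, eval_pow, eval_R]
  have h1 := eval_P j r (n+1)
  push_cast at h1
  rw [h1, eval_P]
  push_cast
  rw [Finset.sum_range_succ]

lemma P_step_eval (j r : ℕ) (x : ℚ) : (P j r).eval (x + 1) = (P j r).eval x + ((R j).eval x)^r := by
  have := congrArg (fun p => p.eval x) (P_step j r)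
  simpa [eval_comp] using this

lemma R_reflect (j : ℕ) (hj : Odd j) (x : ℚ) :
    (R j).eval ((j:ℚ) - 1 - x) = - (R j).eval x := by
  unfold R
  simp only [eval_mul, eval_C]
  rw [descPochhammer_eval_eq_prod_range, descPochhammer_eval_eq_prod_range]
  have h1 : ∏ v ∈ range j, ((j:ℚ) - 1 - x - v) = ∏ v ∈ range j, (-(x - v)) := by
    rw [← Finset.prod_range_reflect]
    refine Finset.prod_congr rfl ?_
    intro v hv
    rw [Finset.mem_range] at hv
    rw [Nat.cast_sub (by omega), Nat.cast_sub (by omega)]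
    push_cast
    ring
  rw [h1, Finset.prod_neg, Finset.card_range, hj.neg_one_pow]
  ring

lemma P_reflect (j r : ℕ) (hj : Odd j) (hr : Odd r) : (P j r).comp (C (j:ℚ) - X) = P j r := by
  apply ext_nat
  intro n
  rw [eval_comp, eval_sub, eval_C, eval_X]
  induction n with
  | zero =>
    rw [Nat.cast_zero, sub_zero, eval_P]
    have h0 := eval_P j r 0
    rw [Nat.cast_zero] at h0
    rw [h0]
    congr 1
    rw [Finset.sum_range_zero]
    refine Finset.sum_eq_zero ?_
    intro h hh
    rw [Finset.mem_range] at hh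
    rw [Nat.choose_eq_zero_of_lt hh, zero_pow hr.pos.ne']
  | succ n ih =>
    have h1 := P_step_eval j r ((j:ℚ) - (n+1))
    have e1 : (j:ℚ) - (n+1) + 1 = j - n := by ring
    rw [e1] at h1
    have h2 : (R j).eval ((j:ℚ) - (n+1)) = - (R j).eval (n:ℚ) := by
      rw [← R_reflect j hj]
      congr 1
      ring
    rw [h2, hr.neg_pow] at h1
    have h3 := P_step_eval j r (n:ℚ)
    push_cast
    rw [h3, ← ih, h1]
    ring

lemma deriv_P_zero (j r : ℕ) (hj : Odd j) (hr : Odd r) (hr2 : 2 ≤ r) :
    (derivative (P j r)).eval 0 = 0 := by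
  have h1 : (derivative (P j r)).eval (j:ℚ) = - (derivative (P j r)).eval 0 := by
    have := congrArg derivative (P_reflect j r hj hr)
    rw [derivative_comp] at this
    have h2 := congrArg (fun p => p.eval (0:ℚ)) this
    simp [eval_comp] at h2
    linarith
  have h3 : ∀ t : ℕ, t ≤ j → (derivative (P j r)).eval (t:ℚ) = (derivative (P j r)).eval 0 := by
    intro t
    induction t with
    | zero => intro _; simp
    | succ t ih =>
      intro ht
      have h4 := congrArg derivative (P_step j r)
      rw [derivative_comp] at h4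
      have h5 := congrArg (fun p => p.eval (t:ℚ)) h4
      simp only [derivative_add, derivative_X, derivative_one, add_zero, one_mul, eval_comp,
        eval_add, eval_X, eval_one] at h5
      have h6 : (derivative ((R j)^r)).eval (t:ℚ) = 0 := by
        rw [derivative_pow, eval_mul, eval_mul, eval_pow, eval_R,
          Nat.choose_eq_zero_of_lt (by omega)]
        rw [Nat.cast_zero, zero_pow (by omega)]
        ring
      rw [h6, add_zero] at h5
      push_cast
      rw [h5]
      exact ih (by omega)
  have h7 := h3 j le_rfl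
  rw [h1] at h7
  linarith

lemma deriv_desc_zero (i : ℕ) :
    (derivative (descPochhammer ℚ (i+1))).eval 0 = (-1)^i * (i.factorial : ℚ) := by
  rw [descPochhammer_succ_left, derivative_mul, derivative_X, one_mul, eval_add, eval_mul, eval_X,
    zero_mul, add_zero, eval_comp, eval_sub, eval_X, eval_one,
    descPochhammer_eval_eq_prod_range]
  have : ∀ v ∈ range i, ((0:ℚ) - 1 - v) = -((v:ℚ)+1) := by
    intro v _; ring
  rw [Finset.prod_congr rfl this, Finset.prod_neg, Finset.card_range]
  congr 1
  rw [← Finset.prod_range_add_one_eq_factorial]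
  push_cast
  rfl

lemma alt_sum (j r : ℕ) (hj : Odd j) (hr : Odd r) (hr2 : 2 ≤ r) :
    ∑ i ∈ range (j*r+1), (cc j r i : ℚ) * (-1)^i / ((i:ℚ)+1) = 0 := by
  rw [← deriv_P_zero j r hj hr hr2]
  unfold P
  rw [derivative_sum, eval_finsetSum]
  refine Finset.sum_congr rfl ?_
  intro i _
  rw [derivative_C_mul, eval_mul, eval_C, deriv_desc_zero, Nat.factorial_succ]
  have h1 : (i.factorial : ℚ) ≠ 0 := by exact_mod_cast Nat.factorial_ne_zero i
  have h2 : (i:ℚ) + 1 ≠ 0 := by positivity
  push_cast
  field_simp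

end Pool.Agent.R507.MP32
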